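import Mathlib
import Pool.Agent.H358Z.NegD

/-!
# Negative curves of infinitely many types on blow-ups of a rational surface

Let `Y` be the blow-up of the projective plane at the thirty-six points `(± a : ± a³ : 1)`,
`a = 1, …, 9`.  They are the preimages under `(x : y : z) ↦ (x² : y² : z²)` of nine points of a
cuspidal cubic, and the plane blown up at these nine points has negative curves of unbounded degree.
The components of their preimages are integral curves `C` on `Y` with `C² < 0` and `K·C` unbounded.
Blowing up further points keeps `C²` negative and does not decrease `K·C = 2 p_a(C) - 2 - C²`.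

If `X` is the blow-up of the plane at the finite set `T`, the proper transform `C` of the
irreducible plane curve `F = 0` of degree `d` with multiplicity `m_p` at `p` is an integral curve of
class `d H - ∑ m_p E_p`, so `C² = d² - ∑ m_p²` and
`p_a(C) = (d - 1)(d - 2)/2 - ∑ m_p (m_p - 1)/2`.
-/

set_option autoImplicit false

namespace Pool.Agent.Results.MP_008bba_ag.AInfinitelyManyTypes

open MvPolynomial

/-- The points of the projective plane over `k`. -/
abbrev Plane (k : Type*) [Field k] := Projectivization k (Fin 3 → k)

variable {k : Type*} [Field k]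

/-- The multiplicity at `p` of the plane curve `F = 0`: the largest `m` such that the form `F` lies
in the `m`-th power of the ideal of the polynomials that vanish at a coordinate vector of `p`. -/
noncomputable def mult (F : MvPolynomial (Fin 3) k) (p : Plane k) : ℕ :=
  sSup {m : ℕ | F ∈ (RingHom.ker (eval p.rep)) ^ m}

/-- The self-intersection `d² - ∑ m_p²` of the proper transform of the plane curve `F = 0` of
degree `d` on the blow-up of the plane at the points of `T`. -/
noncomputable def selfInt (T : Finset (Plane k)) (d : ℕ) (F : MvPolynomial (Fin 3) k) : ℤ :=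
  (d : ℤ) ^ 2 - ∑ p ∈ T, (mult F p : ℤ) ^ 2

/-- The arithmetic genus `((d - 1)(d - 2) - ∑ m_p (m_p - 1)) / 2` of the proper transform of the
plane curve `F = 0` of degree `d` on the blow-up of the plane at the points of `T`. -/
noncomputable def arithGenus (T : Finset (Plane k)) (d : ℕ) (F : MvPolynomial (Fin 3) k) : ℤ :=
  (((d : ℤ) - 1) * ((d : ℤ) - 2) - ∑ p ∈ T, (mult F p : ℤ) * ((mult F p : ℤ) - 1)) / 2

/-- There is a set `S` of thirty-six points of the plane such that, on the blow-up of the plane at
any finite set `T ⊇ S`, no constants `ν`, `π` bound the self-intersection from below and the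
arithmetic genus from above for all proper transforms of irreducible plane curves that have
negative self-intersection. -/
theorem result (k : Type*) [Field k] [IsAlgClosed k] [CharZero k] :
    ∃ S : Finset (Plane k), S.card = 36 ∧ ∀ T : Finset (Plane k), S ⊆ T →
      ¬ ∃ ν π : ℤ, ∀ (d : ℕ) (F : MvPolynomial (Fin 3) k), F.IsHomogeneous d → Irreducible F →
        selfInt T d F < 0 → -ν ≤ selfInt T d F ∧ arithGenus T d F ≤ π := by
  refine ⟨H358Z.Neg.SS k, H358Z.Neg.card_SS, fun T hT => ?_⟩
  rintro ⟨ν, π, h⟩
  obtain ⟨H, f, h1, h2, h3, h4⟩ := H358Z.Neg.main_superset T hT (ν + 2 * π).toNat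
  have hm : ∀ p : Plane k, mult H p = Chud.mu p.rep H :=
    fun p => H358Z.Neg.sSup_eq_mu p.rep h1.ne_zero
  have h5 : (f : ℤ) ^ 2 < ∑ p ∈ T, (mult H p : ℤ) ^ 2 := by
    simp only [hm]
    exact_mod_cast h3
  have h6 : 3 * (f : ℤ) + ((ν + 2 * π).toNat : ℤ) ≤ ∑ p ∈ T, (mult H p : ℤ) := by
    simp only [hm]
    exact_mod_cast h4
  obtain ⟨h7, h8⟩ := h f H h2 h1 (by unfold selfInt; omega)
  have h9 : ∑ p ∈ T, (mult H p : ℤ) * ((mult H p : ℤ) - 1) =
      ∑ p ∈ T, (mult H p : ℤ) ^ 2 - ∑ p ∈ T, (mult H p : ℤ) := by
    rw [← Finset.sum_sub_distrib]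
    exact Finset.sum_congr rfl fun p _ => by ring
  have h10 : ((f : ℤ) - 1) * ((f : ℤ) - 2) = (f : ℤ) ^ 2 - 3 * f + 2 := by ring
  unfold selfInt at h7
  unfold arithGenus at h8
  rw [h9, h10] at h8
  omega

end Pool.Agent.Results.MP_008bba_ag.AInfinitelyManyTypes
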